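import Mathlib

/-!
# General tools: evaluation closures, Lindelof Sigma sets, extension from dense subsets of products
-/

namespace Pool.Agent.H384Z.Ups

open Set Filter Topology

/-- Continuous real functions with the topology of pointwise convergence. -/
abbrev Cp (X : Type) [TopologicalSpace X] := {f : X → ℝ // Continuous f}

/-- The evaluation map of a space into the power of the line over its continuous functions. -/
def ev (Z : Type) [TopologicalSpace Z] : Z → (Cp Z → ℝ) := fun y g => g.1 y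

/-- A subset with a countable network modulo a compact cover. -/
def LSigma {E : Type} [TopologicalSpace E] (S : Set E) : Prop :=
  ∃ F : Set (Set E), F.Countable ∧ ∀ x ∈ S, ∃ K : Set E, IsCompact K ∧ x ∈ K ∧ K ⊆ S ∧
    ∀ U : Set E, IsOpen U → K ⊆ U → ∃ A ∈ F, K ⊆ A ∧ A ⊆ U ∩ S

theorem LSigma.isLindelof {E : Type} [TopologicalSpace E] {S : Set E} (h : LSigma S) :
    IsLindelof S := by
  obtain ⟨F, hF, h⟩ := h
  refine isLindelof_of_countable_subcover fun {ι} U hU hS => ?_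
  let G : Set (Set E) := {A ∈ F | ∃ t : Finset ι, A ⊆ ⋃ i ∈ t, U i}
  have hG : G.Countable := hF.mono fun A hA => hA.1
  have hc : ∀ A : G, ∃ t : Finset ι, (A : Set E) ⊆ ⋃ i ∈ t, U i := fun A => A.2.2
  choose t ht using hc
  have : Countable G := hG.to_subtype
  refine ⟨⋃ A : G, (t A : Set ι), countable_iUnion fun A => (t A).countable_toSet, ?_⟩
  intro x hx
  obtain ⟨K, hK, hxK, hKS, hN⟩ := h x hx
  obtain ⟨s, hs⟩ := hK.elim_finite_subcover U hU (hKS.trans hS)
  obtain ⟨A, hA, hKA, hAU⟩ := hN _ (isOpen_biUnion fun i _ => hU i) hs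
  have hAG : A ∈ G := ⟨hA, s, fun z hz => (hAU hz).1⟩
  have := ht ⟨A, hAG⟩ (hKA hxK)
  simp only [mem_iUnion] at this ⊢
  obtain ⟨i, hi, hxi⟩ := this
  exact ⟨i, ⟨⟨A, hAG⟩, hi⟩, hxi⟩

theorem LSigma.image {E E' : Type} [TopologicalSpace E] [TopologicalSpace E'] {S : Set E}
    (h : LSigma S) {g : E → E'} (hg : ContinuousOn g S) : LSigma (g '' S) := by
  obtain ⟨F, hF, h⟩ := h
  refine ⟨(fun A => g '' A) '' F, hF.image _, ?_⟩
  rintro _ ⟨x, hx, rfl⟩
  obtain ⟨K, hK, hxK, hKS, hN⟩ := h x hx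
  refine ⟨g '' K, hK.image_of_continuousOn (hg.mono hKS), mem_image_of_mem g hxK,
    image_mono hKS, fun U hU hKU => ?_⟩
  obtain ⟨V, hV, hVe⟩ := (continuousOn_iff'.1 hg) U hU
  have hKV : K ⊆ V := fun z hz => by
    have : z ∈ g ⁻¹' U ∩ S := ⟨hKU (mem_image_of_mem g hz), hKS hz⟩
    rw [hVe] at this
    exact this.1
  obtain ⟨A, hA, hKA, hAV⟩ := hN V hV hKV
  refine ⟨g '' A, mem_image_of_mem _ hA, image_mono hKA, ?_⟩
  rintro _ ⟨z, hz, rfl⟩
  have h1 : z ∈ V ∩ S := hAV hz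
  rw [← hVe] at h1
  exact ⟨h1.1, mem_image_of_mem g h1.2⟩

/-- A criterion through a countable family of closed sets. -/
theorem lsigma_of_closed {E ι : Type} [TopologicalSpace E] [T2Space E] [Countable ι]
    {S : Set E} (B : ι → Set E) (hB : ∀ i, IsClosed (B i))
    (h : ∀ u ∈ S, ∀ 𝒰 : Ultrafilter E, (∀ i, u ∈ B i → B i ∈ 𝒰) → ∃ v ∈ S, (𝒰 : Filter E) ≤ 𝓝 v) :
    LSigma S := by
  classical
  refine ⟨range fun t : Finset ι => (⋂ i ∈ t, B i) ∩ S, countable_range _, fun u hu => ?_⟩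
  let K : Set E := ⋂ i ∈ {i | u ∈ B i}, B i
  have hKS : K ⊆ S := fun z hz => by
    obtain ⟨v, hv, hle⟩ := h u hu (pure z) fun i hi => by
      have := mem_iInter₂.1 hz i hi
      simpa using this
    have h2 : (pure z : Filter E) ≤ 𝓝 z := pure_le_nhds z
    have : z = v := tendsto_nhds_unique (f := id) (l := (pure z : Filter E)) h2 hle
    exact this ▸ hv
  have hlim : ∀ 𝒰 : Ultrafilter E, (∀ i, u ∈ B i → B i ∈ 𝒰) → ∃ v ∈ K, (𝒰 : Filter E) ≤ 𝓝 v := by
    intro 𝒰 h𝒰
    obtain ⟨v, -, hle⟩ := h u hu 𝒰 h𝒰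
    refine ⟨v, mem_iInter₂.2 fun i hi => ?_, hle⟩
    exact (hB i).mem_of_tendsto (f := id) (b := (𝒰 : Filter E)) hle (h𝒰 i hi)
  refine ⟨K, ?_, mem_iInter₂.2 fun i hi => hi, hKS, fun U hU hKU => ?_⟩
  · refine isCompact_iff_ultrafilter_le_nhds.2 fun 𝒰 h𝒰 => hlim 𝒰 fun i hi => ?_
    exact mem_of_superset (le_principal_iff.1 h𝒰) (biInter_subset_of_mem hi)
  · by_contra hcon
    push Not at hcon
    have hne : ∀ t : Finset ι, (∀ i ∈ t, u ∈ B i) → (((⋂ i ∈ t, B i) ∩ S) ∩ Uᶜ).Nonempty := by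
      intro t ht
      have hKA : K ⊆ (⋂ i ∈ t, B i) ∩ S := fun z hz =>
        ⟨mem_iInter₂.2 fun i hi => mem_iInter₂.1 hz i (ht i hi), hKS hz⟩
      have := hcon _ ⟨t, rfl⟩ hKA
      rw [not_subset] at this
      obtain ⟨z, hz, hz'⟩ := this
      exact ⟨z, hz, fun hzU => hz' ⟨hzU, hz.2⟩⟩
    let l : Filter E := (⨅ i : {i // u ∈ B i}, 𝓟 (B i)) ⊓ 𝓟 Uᶜ
    have hl : l.NeBot := by
      rw [inf_principal_neBot_iff]
      intro W hW
      rw [mem_iInf] at hW
      obtain ⟨I, hI, V, hV, rfl⟩ := hW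
      obtain ⟨z, hz, hz'⟩ := hne (hI.toFinset.image Subtype.val) (by
        intro i hi
        obtain ⟨j, -, rfl⟩ := Finset.mem_image.1 hi
        exact j.2)
      refine ⟨z, mem_iInter.2 fun j => ?_, hz'⟩
      apply mem_principal.1 (hV j)
      exact mem_iInter₂.1 hz.1 j.1.1 (Finset.mem_image.2 ⟨j.1, by simp, rfl⟩)
    obtain ⟨𝒰, h𝒰⟩ := Ultrafilter.exists_le l
    obtain ⟨v, hv, hle⟩ := hlim 𝒰 fun i hi => by
      apply h𝒰
      exact mem_inf_of_left (mem_iInf_of_mem ⟨i, hi⟩ (mem_principal_self _))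
    have h1 : U ∈ 𝒰 := hle (hU.mem_nhds (hKU hv))
    have h2 : Uᶜ ∈ 𝒰 := h𝒰 (mem_inf_of_right (mem_principal_self _))
    exact (Ultrafilter.compl_mem_iff_notMem.1 h2) h1

theorem exists_rho (a₀ : ℕ → ℝ) :
    ∃ ρ : (ℕ → ℝ) → ℝ, Continuous ρ ∧ ∀ a, ρ a = 0 ↔ a = a₀ := by
  let : MetricSpace (ℕ → ℝ) := TopologicalSpace.metrizableSpaceMetric (ℕ → ℝ)
  exact ⟨fun a => dist a a₀, continuous_id.dist continuous_const, fun a => dist_eq_zero⟩

/-- A space is dense in its evaluation closure for countable families of functions. -/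
theorem exists_agree {Z : Type} [TopologicalSpace Z] {ξ : Cp Z → ℝ}
    (hξ : ξ ∈ closure (range (ev Z))) (ψ : ℕ → Cp Z) : ∃ z : Z, ∀ n, (ψ n).1 z = ξ (ψ n) := by
  by_contra hcon
  push Not at hcon
  obtain ⟨ρ, hρ, hρ0⟩ := exists_rho fun n => ξ (ψ n)
  have hΨ : Continuous fun (z : Z) (n : ℕ) => (ψ n).1 z := continuous_pi fun n => (ψ n).2
  have hne : ∀ z : Z, ρ (fun n => (ψ n).1 z) ≠ 0 := fun z hz => by
    obtain ⟨n, hn⟩ := hcon z
    exact hn (congrFun ((hρ0 _).1 hz) n)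
  let h : Cp Z := ⟨fun z => (ρ fun n => (ψ n).1 z)⁻¹, (hρ.comp hΨ).inv₀ hne⟩
  have hcl : IsClosed {η : Cp Z → ℝ | η h * ρ (fun n => η (ψ n)) = 1} :=
    isClosed_eq ((continuous_apply h).mul (hρ.comp (continuous_pi fun n => continuous_apply _)))
      continuous_const
  have : ξ ∈ {η : Cp Z → ℝ | η h * ρ (fun n => η (ψ n)) = 1} := by
    refine hcl.closure_subset_iff.2 ?_ hξ
    rintro _ ⟨z, rfl⟩
    exact inv_mul_cancel₀ (hne z)
  rw [mem_ofPred_eq, (hρ0 _).2 rfl, mul_zero] at this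
  exact zero_ne_one this

/-- Closing off under a countably valued operation on finite sets. -/
theorem exists_closed_off {I : Type} (G : Set I → Set I) (hG : ∀ s, s.Finite → (G s).Countable) :
    ∃ A : Set I, A.Countable ∧ ∀ s, s.Finite → s ⊆ A → G s ⊆ A := by
  let step : Set I → Set I := fun A => A ∪ ⋃ s ∈ {s : Set I | s.Finite ∧ s ⊆ A}, G s
  let A : ℕ → Set I := fun n => step^[n] ∅
  have hsucc : ∀ n, A (n + 1) = step (A n) := fun n => Function.iterate_succ_apply' _ _ _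
  have hc : ∀ n, (A n).Countable := by
    intro n
    induction n with
    | zero => exact countable_empty
    | succ n ih =>
      rw [hsucc]
      exact ih.union ((countable_ofPred_finite_subset ih).biUnion fun s hs => hG s hs.1)
  have hmono : Monotone A := monotone_nat_of_le_succ fun n => by
    rw [hsucc]; exact subset_union_left
  refine ⟨⋃ n, A n, countable_iUnion hc, fun s hs hsA => ?_⟩
  obtain ⟨n, hn⟩ : ∃ n, s ⊆ A n := by
    have h1 : ∀ z : s, ∃ n, z.1 ∈ A n := fun z => mem_iUnion.1 (hsA z.2)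
    choose m hm using h1
    have : Finite s := hs.to_subtype
    obtain ⟨n, hn⟩ := (finite_range m).bddAbove
    exact ⟨n, fun z hz => hmono (hn ⟨⟨z, hz⟩, rfl⟩) (hm ⟨z, hz⟩)⟩
  refine Subset.trans ?_ (subset_iUnion A (n + 1))
  rw [hsucc]
  exact fun z hz => Or.inr (mem_iUnion₂.2 ⟨s, ⟨hs, hn⟩, hz⟩)

/-- The closure of an open subset of a power depends on countably many coordinates. -/
theorem closure_open_depends {I Z : Type} [PseudoMetricSpace Z] [SecondCountableTopology Z]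
    {O : Set (I → Z)} (hO : IsOpen O) :
    ∃ A : Set I, A.Countable ∧
      ∀ u v : I → Z, (∀ i ∈ A, u i = v i) → u ∈ closure O → v ∈ closure O := by
  classical
  have h1 : ∀ w : O, ∃ J : Set I, J.Finite ∧ ∀ w' : I → Z, (∀ i ∈ J, w' i = w.1 i) → w' ∈ O := by
    intro w
    obtain ⟨J, t, ht, hJ⟩ := isOpen_pi_iff.1 hO w.1 w.2
    refine ⟨J, J.finite_toSet, fun w' hw' => hJ fun i hi => ?_⟩
    rw [hw' i hi]
    exact (ht i hi).2
  choose J hJ hJO using h1
  have h2 : ∀ s : Set I, s.Finite → ∃ D : Set O, D.Countable ∧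
      s.domRestrict '' O ⊆ closure ((fun w : O => s.domRestrict w.1) '' D) := by
    intro s hs
    have : Finite s := hs.to_subtype
    obtain ⟨t, hts, htc, hd⟩ :=
      (TopologicalSpace.IsSeparable.of_separableSpace
        (s.domRestrict '' O : Set (s → Z))).exists_countable_dense_subset
    have h3 : ∀ a : t, ∃ w : O, s.domRestrict w.1 = a.1 := fun a => by
      obtain ⟨w, hw, hwa⟩ := hts a.2
      exact ⟨⟨w, hw⟩, hwa⟩
    choose g hg using h3
    have : Countable t := htc.to_subtype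
    refine ⟨range g, countable_range g, hd.trans (closure_mono fun a ha => ?_)⟩
    exact ⟨g ⟨a, ha⟩, mem_range_self _, hg _⟩
  choose! D hDc hD using h2
  obtain ⟨A, hAc, hA⟩ := exists_closed_off (fun s => ⋃ w ∈ D s, J w)
    fun s hs => (hDc s hs).biUnion fun w _ => (hJ w).countable
  refine ⟨A, hAc, fun u v huv hu => ?_⟩
  rw [mem_closure_iff]
  intro V hV hvV
  obtain ⟨F, t, ht, hF⟩ := isOpen_pi_iff.1 hV v hvV
  let s : Set I := (F : Set I) ∩ A
  have hs : s.Finite := F.finite_toSet.inter_of_left A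
  have : Finite s := hs.to_subtype
  have hcont : Continuous (s.domRestrict : (I → Z) → (s → Z)) :=
    continuous_pi fun i => continuous_apply _
  have h4 : s.domRestrict u ∈ closure ((fun w : O => s.domRestrict w.1) '' D s) := by
    have h5 : s.domRestrict u ∈ closure (s.domRestrict '' O) :=
      image_closure_subset_closure_image hcont (mem_image_of_mem _ hu)
    exact closure_minimal (hD s hs) isClosed_closure h5
  have hW : IsOpen {a : s → Z | ∀ i : s, a i ∈ t i.1} := by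
    rw [ofPred_forall]
    exact isOpen_iInter_of_finite fun i => ((ht i.1 i.2.1).1).preimage (continuous_apply i)
  obtain ⟨_, hw1, w, hwD, rfl⟩ := mem_closure_iff.1 h4 _ hW (fun i => by
    change u i.1 ∈ t i.1
    rw [huv i.1 i.2.2]
    exact (ht i.1 i.2.1).2)
  refine ⟨fun i => if i ∈ A then w.1 i else v i, hF fun i hi => ?_, hJO w _ fun i hi => ?_⟩
  · by_cases hiA : i ∈ A
    · simp only [hiA, if_true]
      exact hw1 ⟨i, hi, hiA⟩
    · simp only [hiA, if_false]
      exact (ht i hi).2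
  · have : i ∈ A := hA s hs inter_subset_right (mem_iUnion₂.2 ⟨w, hwD, hi⟩)
    simp only [this, if_true]

/-- A continuous function on a dense subspace of a power has limits at the points that agree
with a point of the subspace on a suitable countable set of coordinates. -/
theorem exists_countable_tendsto {I Z Y : Type} [PseudoMetricSpace Z] [SecondCountableTopology Z]
    [TopologicalSpace Y] {e : Y → (I → Z)} (he : IsInducing e) (hd : DenseRange e)
    {φ : Y → ℝ} (hφ : Continuous φ) :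
    ∃ A : Set I, A.Countable ∧ ∀ (y : Y) (u : I → Z), (∀ i ∈ A, e y i = u i) →
      Tendsto φ (comap e (𝓝 u)) (𝓝 (φ y)) := by
  have h1 : ∀ b : Set ℝ, ∃ O : Set (I → Z), IsOpen O ∧ e ⁻¹' O = φ ⁻¹' (closure b)ᶜ :=
    fun b => he.isOpen_iff.1 (isClosed_closure.isOpen_compl.preimage hφ)
  choose O hO hOe using h1
  choose A hAc hA using fun b => closure_open_depends (hO b)
  refine ⟨⋃ b ∈ TopologicalSpace.countableBasis ℝ, A b,
    (TopologicalSpace.countable_countableBasis ℝ).biUnion fun b _ => hAc b, fun y u hyu => ?_⟩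
  intro N hN
  obtain ⟨N', hN', hN'c, hN'N⟩ := exists_mem_nhds_isClosed_subset hN
  obtain ⟨b, hb, hyb, hbN⟩ :=
    (TopologicalSpace.isBasis_countableBasis ℝ).mem_nhds_iff.1 hN'
  have hbo : IsOpen b := TopologicalSpace.isOpen_of_mem_countableBasis hb
  have hcl : closure b ⊆ N := (closure_minimal hbN hN'c).trans hN'N
  have h2 : e y ∉ closure (O b) := by
    intro h
    obtain ⟨O', hO', hO'e⟩ := he.isOpen_iff.1 (hbo.preimage hφ)
    have hy : e y ∈ O' := by
      have : y ∈ e ⁻¹' O' := hO'e ▸ hyb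
      exact this
    have hne := mem_closure_iff.1 h O' hO' hy
    obtain ⟨y', hy'⟩ := hd.exists_mem_open (hO'.inter (hO b)) hne
    have h3 : y' ∈ φ ⁻¹' b := hO'e ▸ hy'.1
    have h4 : y' ∈ φ ⁻¹' (closure b)ᶜ := hOe b ▸ hy'.2
    exact h4 (subset_closure h3)
  have h3 : u ∉ closure (O b) := fun h =>
    h2 (hA b u (e y) (fun i hi => (hyu i (mem_iUnion₂.2 ⟨b, hb, hi⟩)).symm) h)
  refine mem_map.2 (mem_comap.2 ⟨(closure (O b))ᶜ, isClosed_closure.isOpen_compl.mem_nhds h3,
    fun y' hy' => hcl ?_⟩)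
  by_contra h4
  have h5 : y' ∈ e ⁻¹' O b := (hOe b).symm ▸ h4
  exact hy' (subset_closure h5)

/-- Extension of a continuous function from a dense subspace of a power. -/
theorem exists_extension {I Z Y : Type} [PseudoMetricSpace Z] [SecondCountableTopology Z]
    [TopologicalSpace Y] {e : Y → (I → Z)} (he : IsInducing e) (hd : DenseRange e)
    {L : Set (I → Z)} (hL : ∀ u ∈ L, ∀ A : Set I, A.Countable → ∃ y, ∀ i ∈ A, e y i = u i)
    {φ : Y → ℝ} (hφ : Continuous φ) :
    ∃ ψ : (I → Z) → ℝ, ContinuousOn ψ L ∧ ∀ y, ψ (e y) = φ y := by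
  obtain ⟨A, hAc, hA⟩ := exists_countable_tendsto he hd hφ
  have hdi : IsDenseInducing e := ⟨he, hd⟩
  have hne : ∀ u, (comap e (𝓝 u)).NeBot := fun u => hdi.comap_nhds_neBot u
  have hlim : ∀ u ∈ L, Tendsto φ (comap e (𝓝 u)) (𝓝 (hdi.extend φ u)) := by
    intro u hu
    obtain ⟨y, hy⟩ := hL u hu A hAc
    have h1 := hA y u hy
    rw [hdi.extend_eq_of_tendsto h1]
    exact h1
  refine ⟨hdi.extend φ, fun u hu => ?_, fun y => hdi.extend_eq hφ y⟩
  refine ((closed_nhds_basis (hdi.extend φ u)).tendsto_right_iff).2 fun N hN => ?_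
  obtain ⟨V, hV, hVN⟩ := mem_comap.1 (hlim u hu hN.1)
  obtain ⟨V', hV'V, hV'o, huV'⟩ := mem_nhds_iff.1 hV
  filter_upwards [mem_nhdsWithin_of_mem_nhds (hV'o.mem_nhds huV'), self_mem_nhdsWithin]
    with u' hu'V hu'L
  have := hne u'
  refine hN.2.mem_of_tendsto (hlim u' hu'L) ?_
  exact mem_comap.2 ⟨V', hV'o.mem_nhds hu'V, fun y hy => hVN (hV'V hy)⟩

end Pool.Agent.H384Z.Ups
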