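import Pool.Agent.H384Z.UpsSpace

/-!
# The realcompactification of `Cp (Cp X)` is not Lindelof
-/

namespace Pool.Agent.H384Z.Ups

open Set Filter Topology unitInterval

/-- The unbounded sequence. -/
def u₀ : ℕ → ℝ := fun k => k

theorem seq_ne (f : Cp X) (p : ℕ → I) : (fun k => f.1 (X.pt (T.base (p k)) k)) ≠ u₀ := by
  intro h
  obtain ⟨k₀, hk⟩ := conv_of_continuous f.2 1 one_pos
  obtain ⟨n, hn⟩ := exists_nat_gt (f.1 X.top + 1)
  have h1 := hk (max k₀ n) (le_max_left _ _) (p (max k₀ n))
  have h2 : f.1 (X.pt (T.base (p (max k₀ n))) (max k₀ n)) = (max k₀ n : ℕ) := congrFun h _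
  have h3 : (n : ℝ) ≤ (max k₀ n : ℕ) := by exact_mod_cast le_max_right k₀ n
  have h4 := (abs_le.1 h1).2
  linarith

/-- The approximating functions. -/
noncomputable def approx (g : ℕ → (T → I) → ℝ) (m : ℕ) : X → ℝ
  | X.top => 0
  | X.pt x k => if k ≤ m then (k : ℝ) * max 0 (1 - m * g k (M x)) else 0

theorem good_approx {g : ℕ → (T → I) → ℝ} (hg : ∀ k, Continuous (g k)) (m : ℕ) :
    Good (approx g m) := by
  refine ⟨fun k => ?_, fun ε hε => ⟨m + 1, fun k hk d => ?_⟩⟩
  · by_cases h : k ≤ m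
    · simp only [approx, h, if_true]
      have := (hg k).comp continuous_M
      exact continuous_const.mul (continuous_const.max
        (continuous_const.sub (continuous_const.mul this)))
    · simp only [approx, h, if_false]
      exact continuous_const
  · have h : ¬ k ≤ m := by omega
    simp only [approx, h, if_false, sub_self, abs_zero]
    exact hε.le

open Classical in
/-- The pointwise limit of the approximating functions. -/
noncomputable def approxLim (g : ℕ → (T → I) → ℝ) : X → ℝ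
  | X.top => 0
  | X.pt x k => if g k (M x) = 0 then (k : ℝ) else 0

theorem approxLim_mem {g : ℕ → (T → I) → ℝ} (hg : ∀ k d, 0 < g k (M (T.base d))) :
    approxLim g ∈ L := by
  refine ⟨fun k => ⟨k, fun x => ?_⟩, fun ε hε => ⟨0, fun k _ d => ?_⟩⟩
  · by_cases h : g k (M x) = 0
    · simp [approxLim, h]
    · simp [approxLim, h]
  · simp only [approxLim, (hg k d).ne', if_false, sub_self, abs_zero]
    exact hε.le

theorem tendsto_approx {g : ℕ → (T → I) → ℝ} (hg : ∀ k v, 0 ≤ g k v) :
    Tendsto (approx g) atTop (𝓝 (approxLim g)) := by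
  rw [tendsto_pi_nhds]
  intro z
  cases z with
  | top => exact tendsto_const_nhds
  | pt x k =>
    refine tendsto_const_nhds.congr' ?_
    by_cases h : g k (M x) = 0
    · filter_upwards [eventually_ge_atTop k] with m hm
      simp [approx, approxLim, h, hm]
    · have hpos : 0 < g k (M x) := lt_of_le_of_ne (hg k _) (Ne.symm h)
      obtain ⟨n, hn⟩ := exists_nat_ge (1 / g k (M x))
      filter_upwards [eventually_ge_atTop n] with m hm
      have h1 : (n : ℝ) ≤ m := by exact_mod_cast hm
      have h2 : 1 ≤ m * g k (M x) := by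
        rw [div_le_iff₀ hpos] at hn
        nlinarith
      have h3 : max 0 (1 - m * g k (M x)) = 0 := max_eq_left (by linarith)
      simp [approx, approxLim, h, h3]

theorem not_isLindelof_ups : ¬ IsLindelof (closure (range (ev (Cp (Cp X))))) := by
  intro hlin
  obtain ⟨ρ, hρ, hρ0⟩ := exists_rho u₀
  have hne : ∀ (p : ℕ → I) (f : Cp X), ρ (fun k => f.1 (X.pt (T.base (p k)) k)) ≠ 0 :=
    fun p f h => seq_ne f p ((hρ0 _).1 h)
  let Φ : (ℕ → I) → Cp (Cp X) := fun p =>
    ⟨fun f => (ρ fun k => f.1 (X.pt (T.base (p k)) k))⁻¹,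
      (hρ.comp (continuous_pi fun k =>
        (continuous_apply _).comp continuous_subtype_val)).inv₀ (hne p)⟩
  let evf : Cp X → Cp (Cp (Cp X)) := fun f =>
    ⟨fun φ => φ.1 f, (continuous_apply f).comp continuous_subtype_val⟩
  let G : Filter (ℕ → I) := Filter.pi fun _ => cofinite
  have key : ∀ ξ ∈ closure (range (ev (Cp (Cp X)))),
      ∃ O ∈ 𝓝 ξ, {p | ev _ (Φ p) ∉ O} ∈ G := by
    intro ξ hξ
    by_contra hcon
    push Not at hcon
    have hl : (G ⊓ comap (fun p => ev _ (Φ p)) (𝓝 ξ)).NeBot := by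
      rw [neBot_iff, Ne, ← empty_mem_iff_bot, mem_inf_iff]
      rintro ⟨s, hs, t, ht, hst⟩
      obtain ⟨O, hO, hOt⟩ := mem_comap.1 ht
      refine hcon O hO (mem_of_superset hs fun p hp hpO => ?_)
      have : p ∈ s ∩ t := ⟨hp, hOt hpO⟩
      rw [← hst] at this
      exact this
    obtain ⟨𝒰, h𝒰⟩ := Ultrafilter.exists_le (G ⊓ comap (fun p => ev _ (Φ p)) (𝓝 ξ))
    have hcof : ∀ k, Tendsto (fun p : ℕ → I => p k) (𝒰 : Filter (ℕ → I)) cofinite := fun k =>
      (tendsto_eval_pi (fun _ => cofinite) k).mono_left (h𝒰.trans inf_le_left)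
    have hξ' : Tendsto (fun p => ev _ (Φ p)) (𝒰 : Filter (ℕ → I)) (𝓝 ξ) :=
      tendsto_iff_comap.2 (h𝒰.trans inf_le_right)
    have hc : ∀ k, ∃ c : T → I,
        Tendsto (fun p : ℕ → I => M (T.base (p k))) (𝒰 : Filter (ℕ → I)) (𝓝 c) := by
      intro k
      obtain ⟨c, -, hc⟩ := isCompact_univ.ultrafilter_le_nhds
        (𝒰.map fun p : ℕ → I => M (T.base (p k))) (by simp)
      exact ⟨c, hc⟩
    choose c hc using hc
    choose g hgc hg0 hgz hgp using fun k => exists_zero_fun (hcof k) (hc k)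
    let f : ℕ → Cp X := fun m => ⟨approx g m, (good_approx hgc m).continuous⟩
    let a : ℕ → ℕ → ℝ := fun m k => if k ≤ m then (k : ℝ) else 0
    have h1 : ∀ m, ξ (evf (f m)) * ρ (a m) = 1 := by
      intro m
      have h2 : Tendsto (fun p => ev _ (Φ p) (evf (f m))) (𝒰 : Filter (ℕ → I))
          (𝓝 (ξ (evf (f m)))) := ((continuous_apply _).tendsto ξ).comp hξ'
      have h3 : Tendsto (fun (p : ℕ → I) (k : ℕ) => (f m).1 (X.pt (T.base (p k)) k))
          (𝒰 : Filter (ℕ → I)) (𝓝 (a m)) := by
        rw [tendsto_pi_nhds]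
        intro k
        by_cases hk : k ≤ m
        · simp only [f, a, approx, hk, if_true]
          have h4 : Continuous fun v : T → I => (k : ℝ) * max 0 (1 - m * g k v) :=
            continuous_const.mul (continuous_const.max
              (continuous_const.sub (continuous_const.mul (hgc k))))
          have h5 := (h4.tendsto (c k)).comp (hc k)
          simp only [hgz k, mul_zero, sub_zero, zero_le_one, sup_of_le_right, mul_one] at h5
          exact h5
        · simp only [f, a, approx, hk, if_false]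
          exact tendsto_const_nhds
      have h6 := h2.mul ((hρ.tendsto _).comp h3)
      have h7 : ∀ p : ℕ → I, ev _ (Φ p) (evf (f m)) *
          ρ (fun k => (f m).1 (X.pt (T.base (p k)) k)) = 1 := fun p => inv_mul_cancel₀ (hne p _)
      exact tendsto_nhds_unique h6 (tendsto_const_nhds.congr fun p => (h7 p).symm)
    obtain ⟨ψ, hψ⟩ := exists_agree hξ fun m => evf (f m)
    obtain ⟨ψ', hψ', hψe⟩ := exists_extend ψ
    have h8 : Tendsto (fun m => ψ.1 (f m)) atTop (𝓝 (ψ' (approxLim g))) := by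
      have h9 : Tendsto (fun m => (f m).1) atTop (𝓝[L] (approxLim g)) :=
        tendsto_nhdsWithin_iff.2 ⟨tendsto_approx hg0, Eventually.of_forall fun m => mem_L (f m)⟩
      exact ((hψ' _ (approxLim_mem hgp)).tendsto.comp h9).congr fun m => hψe (f m)
    have h10 : Tendsto a atTop (𝓝 u₀) := by
      rw [tendsto_pi_nhds]
      intro k
      refine tendsto_const_nhds.congr' ?_
      filter_upwards [eventually_ge_atTop k] with m hm
      simp [a, u₀, hm]
    have h11 := h8.mul ((hρ.tendsto _).comp h10)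
    rw [(hρ0 _).2 rfl, mul_zero] at h11
    have h12 : ∀ m, ψ.1 (f m) * (ρ ∘ a) m = 1 := fun m => by
      have := h1 m
      rw [← hψ m] at this
      exact this
    exact zero_ne_one (tendsto_nhds_unique h11 (tendsto_const_nhds.congr fun m => (h12 m).symm))
  choose! O hO hOG using key
  obtain ⟨r, hr, hrS, hcov⟩ := hlin.elim_nhds_subcover O hO
  have h1 : ∀ ξ : r, ∃ U : ℕ → Set I, (∀ k, U k ∈ cofinite) ∧
      ∀ p : ℕ → I, (∀ k, p k ∈ U k) → ev _ (Φ p) ∉ O ξ := by
    intro ξ
    obtain ⟨J, -, U, hU, hsub⟩ := mem_pi.1 (hOG ξ.1 (hrS ξ.1 ξ.2))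
    exact ⟨U, hU, fun p hp => hsub fun k _ => hp k⟩
  choose U hU hUO using h1
  have : Countable r := hr.to_subtype
  have h2 : ∀ k, ∃ d : I, ∀ ξ : r, d ∈ U ξ k := by
    intro k
    by_contra hcon
    push Not at hcon
    have h3 : (univ : Set I) ⊆ ⋃ ξ : r, (U ξ k)ᶜ := fun d _ => mem_iUnion.2 (hcon d)
    have h4 : (univ : Set I).Countable :=
      (countable_iUnion fun ξ : r => (mem_cofinite.1 (hU ξ k)).countable).mono h3
    have h5 : (Icc (0 : ℝ) 1).Countable := by
      have := h4.image (Subtype.val : I → ℝ)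
      rwa [image_univ, Subtype.range_coe] at this
    have h6 := h5.measure_zero MeasureTheory.volume
    simp at h6
  choose p hp using h2
  obtain ⟨ξ, hξ, hmem⟩ := mem_iUnion₂.1 (hcov (subset_closure (mem_range_self (Φ p))))
  exact hUO ⟨ξ, hξ⟩ p (fun k => hp k _) hmem

theorem not_lsigma_ups : ¬ LSigma (closure (range (ev (Cp (Cp X))))) :=
  fun h => not_isLindelof_ups h.isLindelof

end Pool.Agent.H384Z.Ups
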