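import Pool.Agent.H384Z.UpsTree

/-!
# The space `X` and the realcompactification of `Cp X`

`X` consists of countably many copies of `T` and a point `top` to which the sets of base rows
converge.
-/

namespace Pool.Agent.H384Z.Ups

open Set Filter Topology unitInterval

/-- Countably many copies of `T` and one more point. -/
inductive X : Type
  | top : X
  | pt (x : T) (k : ℕ) : X

/-- Uniform convergence on the base rows to the value at the top point. -/
def Conv (u : X → ℝ) : Prop :=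
  ∀ ε > 0, ∃ k₀ : ℕ, ∀ k ≥ k₀, ∀ d : I, |u (X.pt (T.base d) k) - u X.top| ≤ ε

/-- The functions that generate the topology. -/
def Good (u : X → ℝ) : Prop := (∀ k, Continuous fun x => u (X.pt x k)) ∧ Conv u

/-- The generating map. -/
def gen (z : X) : {u : X → ℝ // Good u} → ℝ := fun u => u.1 z

noncomputable instance : TopologicalSpace X := TopologicalSpace.induced gen inferInstance

theorem isInducing_gen : IsInducing gen := ⟨rfl⟩

theorem Good.continuous {u : X → ℝ} (hu : Good u) : Continuous u :=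
  (continuous_apply (⟨u, hu⟩ : {u : X → ℝ // Good u})).comp isInducing_gen.continuous

theorem continuous_pt (k : ℕ) : Continuous fun x => X.pt x k :=
  isInducing_gen.continuous_iff.2 (continuous_pi fun u => u.2.1 k)

theorem conv_iff (u : X → ℝ) : Conv u ↔
    Tendsto (fun q : ℕ × I => u (X.pt (T.base q.2) q.1)) (comap Prod.fst atTop) (𝓝 (u X.top)) := by
  constructor
  · intro h
    rw [Metric.tendsto_nhds]
    intro ε hε
    obtain ⟨k₀, hk⟩ := h (ε / 2) (by linarith)
    refine mem_comap.2 ⟨Ici k₀, Ici_mem_atTop k₀, fun q hq => ?_⟩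
    have := hk q.1 hq q.2
    change dist _ _ < ε
    rw [Real.dist_eq]
    linarith
  · intro h ε hε
    obtain ⟨s, hs, hsub⟩ := mem_comap.1 (Metric.tendsto_nhds.1 h ε hε)
    obtain ⟨k₀, hk₀⟩ := mem_atTop_sets.1 hs
    refine ⟨k₀, fun k hk d => ?_⟩
    have : dist (u (X.pt (T.base d) k)) (u X.top) < ε := hsub (a := (k, d)) (hk₀ k hk)
    rw [Real.dist_eq] at this
    exact this.le

theorem conv_of_continuous {u : X → ℝ} (hu : Continuous u) : Conv u := by
  rw [conv_iff]
  have : Tendsto (fun q : ℕ × I => X.pt (T.base q.2) q.1) (comap Prod.fst atTop) (𝓝 X.top) := by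
    rw [isInducing_gen.tendsto_nhds_iff, tendsto_pi_nhds]
    exact fun v => (conv_iff v.1).1 v.2.2
  exact (hu.tendsto _).comp this

/-- The realcompactification of `Cp X` inside the power of the line. -/
def L : Set (X → ℝ) := {u | (∀ k, ∃ m : ℝ, ∀ x, |u (X.pt x k)| ≤ m) ∧ Conv u}

theorem mem_L (f : Cp X) : f.1 ∈ L :=
  ⟨fun k => bounded_of_continuous (f.2.comp (continuous_pt k)), conv_of_continuous f.2⟩

theorem exists_agree_L {u : X → ℝ} (hu : u ∈ L) {A : Set X} (hA : A.Countable) :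
    ∃ f : Cp X, ∀ z ∈ A, f.1 z = u z := by
  have h1 : ∀ k, ∃ f : T → ℝ, Continuous f ∧ (∀ x ∈ (fun x => X.pt x k) ⁻¹' A, f x = u (X.pt x k)) ∧
      ∀ d, f (T.base d) = u (X.pt (T.base d) k) := by
    intro k
    obtain ⟨m, hm⟩ := hu.1 k
    exact exists_continuous_agree hm
      (hA.preimage_of_injOn fun x _ y _ h => (X.pt.inj h).1)
  choose f hf hfA hfd using h1
  let g : X → ℝ := fun z => match z with
    | X.top => u X.top
    | X.pt x k => f k x
  have hg : Good g := by
    refine ⟨fun k => hf k, fun ε hε => ?_⟩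
    obtain ⟨k₀, hk⟩ := hu.2 ε hε
    refine ⟨k₀, fun k hk' d => ?_⟩
    change |f k (T.base d) - u X.top| ≤ ε
    rw [hfd]
    exact hk k hk' d
  refine ⟨⟨g, hg.continuous⟩, fun z hz => ?_⟩
  cases z with
  | top => rfl
  | pt x k => exact hfA k x hz

theorem exists_L_of_finite (v : X → ℝ) (F : Finset X) : ∃ u ∈ L, ∀ z ∈ F, u z = v z := by
  classical
  refine ⟨fun z => if z ∈ F then v z else v X.top, ⟨fun k => ?_, fun ε hε => ?_⟩,
    fun z hz => if_pos hz⟩
  · obtain ⟨m, hm⟩ := ((insert X.top F).finite_toSet.image fun z => |v z|).bddAbove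
    refine ⟨m, fun x => ?_⟩
    by_cases h : X.pt x k ∈ F
    · simp only [h, if_true]
      exact hm ⟨_, by simp [h], rfl⟩
    · simp only [h, if_false]
      exact hm ⟨X.top, by simp, rfl⟩
  · let lev : X → ℕ := fun z => match z with
      | X.top => 0
      | X.pt _ k => k
    obtain ⟨m, hm⟩ := (F.finite_toSet.image lev).bddAbove
    refine ⟨m + 1, fun k hk d => ?_⟩
    have h : X.pt (T.base d) k ∉ F := fun h => by
      have : k ≤ m := hm ⟨_, h, rfl⟩
      omega
    simp only [h, if_false, ite_self, sub_self, abs_zero]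
    exact hε.le

theorem denseRange_val : DenseRange (Subtype.val : Cp X → (X → ℝ)) := by
  intro v
  rw [mem_closure_iff]
  intro V hV hvV
  obtain ⟨F, t, ht, hF⟩ := isOpen_pi_iff.1 hV v hvV
  obtain ⟨u, hu, huv⟩ := exists_L_of_finite v F
  obtain ⟨f, hf⟩ := exists_agree_L hu F.countable_toSet
  refine ⟨f.1, hF fun i hi => ?_, mem_range_self f⟩
  rw [hf i hi, huv i hi]
  exact (ht i hi).2

theorem gen_injective : Function.Injective gen := by
  classical
  intro z w h
  by_contra hne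
  obtain ⟨u, hu, huv⟩ := exists_L_of_finite (fun y => if y = z then 1 else 0) {z, w}
  obtain ⟨f, hf⟩ := exists_agree_L hu ({z, w} : Finset X).countable_toSet
  have hg : Good f.1 := ⟨fun k => f.2.comp (continuous_pt k), conv_of_continuous f.2⟩
  have h1 : f.1 z = f.1 w := congrFun h ⟨f.1, hg⟩
  rw [hf z (by simp), hf w (by simp), huv z (by simp), huv w (by simp), if_pos rfl,
    if_neg (Ne.symm hne)] at h1
  exact one_ne_zero h1

instance : T35Space X := (⟨isInducing_gen, gen_injective⟩ : IsEmbedding gen).t35Space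

/-- Every continuous function on `Cp X` extends to `L`. -/
theorem exists_extend (φ : Cp (Cp X)) :
    ∃ ψ : (X → ℝ) → ℝ, ContinuousOn ψ L ∧ ∀ f : Cp X, ψ f.1 = φ.1 f :=
  exists_extension (e := (Subtype.val : Cp X → (X → ℝ))) IsInducing.subtypeVal denseRange_val
    (fun _ hu _ hA => exists_agree_L hu hA) φ.2

/-- The closed sets used for the network. -/
def B : (ℕ × ℕ) ⊕ ℕ ⊕ (ℕ × ℕ) → Set (X → ℝ)
  | Sum.inl (k, m) => {u | ∀ x, |u (X.pt x k)| ≤ m}
  | Sum.inr (Sum.inl m) => {u | |u X.top| ≤ m}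
  | Sum.inr (Sum.inr (k₀, j)) =>
      {u | ∀ k ≥ k₀, ∀ d : I, |u (X.pt (T.base d) k) - u X.top| ≤ 1 / ((j : ℝ) + 1)}

theorem isClosed_B (i : (ℕ × ℕ) ⊕ ℕ ⊕ (ℕ × ℕ)) : IsClosed (B i) := by
  rcases i with ⟨k, m⟩ | m | ⟨k₀, j⟩
  · simp only [B, ofPred_forall]
    exact isClosed_iInter fun x => isClosed_le (by fun_prop) continuous_const
  · exact isClosed_le (by fun_prop) continuous_const
  · simp only [B, ofPred_forall]
    exact isClosed_iInter fun k => isClosed_iInter fun _ => isClosed_iInter fun d =>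
      isClosed_le (by fun_prop) continuous_const

theorem lsigma_L : LSigma L := by
  refine lsigma_of_closed B isClosed_B fun u hu 𝒰 h𝒰 => ?_
  have h1 : ∀ k, ∃ m : ℕ, u ∈ B (Sum.inl (k, m)) := fun k => by
    obtain ⟨m, hm⟩ := hu.1 k
    obtain ⟨n, hn⟩ := exists_nat_ge m
    exact ⟨n, fun x => (hm x).trans hn⟩
  have h2 : ∃ m : ℕ, u ∈ B (Sum.inr (Sum.inl m)) := exists_nat_ge |u X.top|
  have h3 : ∀ z : X, ∃ m : ℝ, ∀ᶠ w in (𝒰 : Filter (X → ℝ)), |w z| ≤ m := by
    intro z
    cases z with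
    | top =>
      obtain ⟨m, hm⟩ := h2
      exact ⟨m, h𝒰 _ hm⟩
    | pt x k =>
      obtain ⟨m, hm⟩ := h1 k
      exact ⟨m, mem_of_superset (h𝒰 _ hm) fun w hw => hw x⟩
  have h4 : ∀ z : X, ∃ c : ℝ, Tendsto (fun w : X → ℝ => w z) (𝒰 : Filter (X → ℝ)) (𝓝 c) := by
    intro z
    obtain ⟨m, hm⟩ := h3 z
    obtain ⟨c, -, hc⟩ := (isCompact_Icc (a := -m) (b := m)).ultrafilter_le_nhds
      (𝒰.map fun w => w z) (le_principal_iff.2 (hm.mono fun w hw => abs_le.1 hw))
    exact ⟨c, hc⟩
  choose v hv using h4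
  have hle : (𝒰 : Filter (X → ℝ)) ≤ 𝓝 v := tendsto_pi_nhds.2 hv
  have hB : ∀ i, u ∈ B i → v ∈ B i := fun i hi =>
    (isClosed_B i).mem_of_tendsto (f := id) (b := (𝒰 : Filter (X → ℝ))) hle (h𝒰 i hi)
  refine ⟨v, ⟨fun k => ?_, fun ε hε => ?_⟩, hle⟩
  · obtain ⟨m, hm⟩ := h1 k
    exact ⟨m, hB _ hm⟩
  · obtain ⟨j, hj⟩ := exists_nat_one_div_lt hε
    obtain ⟨k₀, hk⟩ := hu.2 (1 / ((j : ℝ) + 1)) (by positivity)
    have := hB (Sum.inr (Sum.inr (k₀, j))) hk
    exact ⟨k₀, fun k hk' d => (this k hk' d).trans hj.le⟩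

/-- The realcompactification of `Cp X` is a Lindelof Sigma space. -/
theorem lsigma_ups : LSigma (closure (range (ev (Cp X)))) := by
  choose ext hext hextv using exists_extend
  let g : (X → ℝ) → (Cp (Cp X) → ℝ) := fun u φ => ext φ u
  have hg : ContinuousOn g L := continuousOn_pi.2 fun φ => hext φ
  have hgv : ∀ f : Cp X, g f.1 = ev (Cp X) f := fun f => funext fun φ => hextv φ f
  have key : g '' L = closure (range (ev (Cp X))) := by
    apply Subset.antisymm
    · rintro _ ⟨u, hu, rfl⟩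
      have h1 : u ∈ closure (range (Subtype.val : Cp X → (X → ℝ))) := denseRange_val u
      have h2 : ContinuousWithinAt g (range (Subtype.val : Cp X → (X → ℝ))) u :=
        (hg u hu).mono (by rintro _ ⟨f, rfl⟩; exact mem_L f)
      refine closure_mono ?_ (h2.mem_closure_image h1)
      rintro _ ⟨_, ⟨f, rfl⟩, rfl⟩
      exact ⟨f, (hgv f).symm⟩
    · intro ξ hξ
      by_contra hcon
      have hlin : IsLindelof (g '' L) := (lsigma_L.image hg).isLindelof
      obtain ⟨r, hr, hcov⟩ := hlin.elim_countable_subcover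
        (fun φ : Cp (Cp X) => {η : Cp (Cp X) → ℝ | η φ ≠ ξ φ})
        (fun φ => isOpen_ne_fun (continuous_apply φ) continuous_const) (by
          intro η hη
          by_contra h
          simp only [mem_iUnion, mem_ofPred_eq, not_exists, not_not] at h
          exact hcon ((funext h : η = ξ) ▸ hη))
      obtain ⟨ψ, hψ⟩ := (hr.insert ⟨fun _ => 0, continuous_const⟩).exists_eq_range
        (insert_nonempty _ _)
      obtain ⟨f, hf⟩ := exists_agree hξ ψ
      obtain ⟨φ, hφ, hne⟩ := mem_iUnion₂.1 (hcov ⟨f.1, mem_L f, hgv f⟩)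
      have : φ ∈ range ψ := hψ ▸ mem_insert_of_mem _ hφ
      obtain ⟨n, rfl⟩ := this
      exact hne (hf n)
  rw [← key]
  exact lsigma_L.image hg

end Pool.Agent.H384Z.Ups
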