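import Pool.Agent.H384Z.UpsGen

/-!
# A pseudocompact space whose small subsets are embedded for bounded functions

The points and the coordinates are the well-founded trees `T`; the matrix `M` realises every
pattern on countably many columns, and every pattern on countably many rows together with all the
base rows.
-/

namespace Pool.Agent.H384Z.Ups

open Set Filter Topology unitInterval

/-- Well-founded countably branching labelled trees. -/
inductive T : Type
  | base (d : I) : T
  | node (c : ℕ → T) (t : ℕ → I) (g : I → I) : T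

/-- The child relation. -/
def Child (x i : T) : Prop := ∃ c t g n, i = T.node c t g ∧ c n = x

theorem child_wf : WellFounded Child := by
  refine ⟨fun i => ?_⟩
  induction i with
  | base d =>
    refine Acc.intro _ fun x hx => ?_
    obtain ⟨c, t, g, n, h, -⟩ := hx
    cases h
  | node c t g ih =>
    refine Acc.intro _ fun x hx => ?_
    obtain ⟨c', t', g', n, h, rfl⟩ := hx
    cases h
    exact ih n

open Classical in
/-- The value prescribed by a column. -/
noncomputable def colVal (x : T) : T → I
  | T.base _ => 0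
  | T.node c t _ => if h : ∃ n, c n = x then t (Classical.choose h) else 0

open Classical in
/-- The matrix. -/
noncomputable def M : T → T → I
  | T.base d, i => match i with
    | T.base _ => 0
    | T.node _ _ g => g d
  | T.node c t g, i => if h : ∃ n, c n = i then t (Classical.choose h) else colVal (T.node c t g) i

theorem exists_row (j : ℕ → T) (h : T → I) : ∃ x, ∀ n, M x (j n) = h (j n) := by
  refine ⟨T.node j (fun n => h (j n)) (fun _ => 0), fun n => ?_⟩
  have h1 : ∃ m, j m = j n := ⟨n, rfl⟩
  simp only [M, dif_pos h1]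
  rw [Classical.choose_spec h1]

theorem exists_col (a : ℕ → T) (h : T → I) :
    ∃ i, (∀ n, M (a n) i = h (a n)) ∧ ∀ d, M (T.base d) i = h (T.base d) := by
  refine ⟨T.node a (fun n => h (a n)) (fun d => h (T.base d)), fun n => ?_, fun d => rfl⟩
  have h1 : ∃ m, a m = a n := ⟨n, rfl⟩
  cases hx : a n with
  | base d => rfl
  | node c t g =>
    have h2 : ¬ ∃ m, c m = T.node a (fun n => h (a n)) (fun d => h (T.base d)) := by
      rintro ⟨m, hm⟩
      have h3 : Child (T.node a (fun n => h (a n)) (fun d => h (T.base d))) (a n) :=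
        ⟨c, t, g, m, hx, hm⟩
      have h4 : Child (a n) (T.node a (fun n => h (a n)) (fun d => h (T.base d))) :=
        ⟨_, _, _, n, rfl, rfl⟩
      exact child_wf.asymmetric _ _ h3 h4
    have h5 : ∃ m, a m = T.node c t g := ⟨n, hx⟩
    simp only [M, dif_neg h2, colVal, dif_pos h5]
    rw [Classical.choose_spec h5]

theorem exists_row' (u : T → I) {A : Set T} (hA : A.Countable) : ∃ x, ∀ i ∈ A, M x i = u i := by
  obtain ⟨j, hj⟩ := (hA.insert (T.base 0)).exists_eq_range (insert_nonempty _ _)
  obtain ⟨x, hx⟩ := exists_row j u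
  refine ⟨x, fun i hi => ?_⟩
  have : i ∈ range j := hj ▸ mem_insert_of_mem _ hi
  obtain ⟨n, rfl⟩ := this
  exact hx n

theorem exists_col' (h : T → I) {A : Set T} (hA : A.Countable) :
    ∃ i, (∀ x ∈ A, M x i = h x) ∧ ∀ d, M (T.base d) i = h (T.base d) := by
  obtain ⟨a, ha⟩ := (hA.insert (T.base 0)).exists_eq_range (insert_nonempty _ _)
  obtain ⟨i, hi, hi'⟩ := exists_col a h
  refine ⟨i, fun x hx => ?_, hi'⟩
  have : x ∈ range a := ha ▸ mem_insert_of_mem _ hx
  obtain ⟨n, rfl⟩ := this
  exact hi n

noncomputable instance : TopologicalSpace T := TopologicalSpace.induced M inferInstance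

theorem isInducing_M : IsInducing M := ⟨rfl⟩

theorem continuous_M : Continuous M := isInducing_M.continuous

theorem denseRange_M : DenseRange M := by
  intro u
  rw [mem_closure_iff]
  intro V hV huV
  obtain ⟨F, t, ht, hF⟩ := isOpen_pi_iff.1 hV u huV
  obtain ⟨x, hx⟩ := exists_row' u F.countable_toSet
  refine ⟨M x, hF fun i hi => ?_, mem_range_self x⟩
  rw [hx i hi]
  exact (ht i hi).2

/-- The space of rows is pseudocompact. -/
theorem bounded_of_continuous {f : T → ℝ} (hf : Continuous f) : ∃ m : ℝ, ∀ x, |f x| ≤ m := by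
  obtain ⟨ψ, hψ, hψf⟩ := exists_extension (L := univ) isInducing_M denseRange_M
    (fun u _ A hA => exists_row' u hA) hf
  obtain ⟨m, hm⟩ := isCompact_univ.exists_bound_of_continuousOn hψ
  exact ⟨m, fun x => by rw [← hψf x]; exact hm _ (mem_univ _)⟩

/-- Bounded functions on a countable set together with the base rows extend continuously. -/
theorem exists_continuous_agree {u : T → ℝ} {m : ℝ} (hm : ∀ x, |u x| ≤ m) {A : Set T}
    (hA : A.Countable) :
    ∃ f : T → ℝ, Continuous f ∧ (∀ x ∈ A, f x = u x) ∧ ∀ d, f (T.base d) = u (T.base d) := by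
  have hm0 : 0 ≤ m := (abs_nonneg _).trans (hm (T.base 0))
  have hpos : 0 < 2 * (m + 1) := by linarith
  let h : T → I := fun x => ⟨(u x + (m + 1)) / (2 * (m + 1)), by
    have := abs_le.1 (hm x)
    constructor
    · apply div_nonneg <;> linarith
    · rw [div_le_one hpos]; linarith⟩
  obtain ⟨i, hi, hi'⟩ := exists_col' h hA
  have key : ∀ x, M x i = h x → 2 * (m + 1) * (M x i : ℝ) - (m + 1) = u x := by
    intro x hx
    rw [hx]
    change 2 * (m + 1) * ((u x + (m + 1)) / (2 * (m + 1))) - (m + 1) = u x
    field_simp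
    ring
  refine ⟨fun x => 2 * (m + 1) * (M x i : ℝ) - (m + 1), ?_, fun x hx => key x (hi x hx),
    fun d => key _ (hi' d)⟩
  have : Continuous fun x => (M x i : ℝ) :=
    continuous_subtype_val.comp ((continuous_apply i).comp continuous_M)
  fun_prop

/-- A limit of base rows along an ultrafilter finer than the cofinite filter is separated from
the base rows by a zero set. -/
theorem exists_zero_fun {α : Type} {l : Filter α} [l.NeBot] {p : α → I}
    (hp : Tendsto p l cofinite) {c : T → I} (hc : Tendsto (fun a => M (T.base (p a))) l (𝓝 c)) :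
    ∃ g : (T → I) → ℝ, Continuous g ∧ (∀ v, 0 ≤ g v) ∧ g c = 0 ∧ ∀ d, 0 < g (M (T.base d)) := by
  classical
  obtain ⟨i₀, -, hi₀⟩ := exists_col' (fun x => match x with
    | T.base d => d
    | T.node _ _ _ => 0) countable_empty
  obtain ⟨i₁, -, hi₁⟩ := exists_col' (fun x => if x = T.base (c i₀) then 1 else 0) countable_empty
  have h1 : c i₁ = 0 := by
    have h2 : Tendsto (fun a => M (T.base (p a)) i₁) l (𝓝 (c i₁)) :=
      ((continuous_apply i₁).tendsto c).comp hc
    have h3 : ∀ᶠ a in l, M (T.base (p a)) i₁ = 0 := by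
      have h4 : ∀ᶠ a in l, p a ∈ ({c i₀}ᶜ : Set I) := hp (finite_singleton _).compl_mem_cofinite
      filter_upwards [h4] with a ha
      rw [hi₁, if_neg]
      intro h
      exact ha (T.base.inj h)
    exact tendsto_nhds_unique h2 (tendsto_const_nhds.congr' (h3.mono fun a ha => ha.symm))
  refine ⟨fun v => |(v i₀ : ℝ) - c i₀| + v i₁, ?_, fun v => add_nonneg (abs_nonneg _) (v i₁).2.1,
    by simp [h1], fun d => ?_⟩
  · fun_prop
  · change 0 < |(M (T.base d) i₀ : ℝ) - c i₀| + M (T.base d) i₁
    rw [hi₀, hi₁]
    by_cases hd : d = c i₀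
    · simp [hd]
    · have h5 : T.base d ≠ T.base (c i₀) := fun h => hd (T.base.inj h)
      have h6 : (d : ℝ) - c i₀ ≠ 0 := fun h => hd (Subtype.ext (sub_eq_zero.1 h))
      simp [h5, h6]

end Pool.Agent.H384Z.Ups
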